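import Pool.Agent.H889R3.RQ.Stmts
import Pool.Agent.H572R4.QA.B6b

/-! # RQ.A1 (helper192) -/

set_option autoImplicit false

namespace Pool.Agent.H889R3.RQ

open Finset Pool.Agent.H572R2 Pool.Agent.H572R4.QA

theorem a1_inf_same {N : ℕ} (f : (Fin N → Bool) → ℝ) (j : Fin N) (b : Bool) :
    inf2 (rs j b f) j = 0 := by
  unfold inf2
  have h : (fun x => ((rs j b f x - rs j b f (flp j x)) / 2) ^ 2) = fun _ : Fin N → Bool => (0:ℝ) := by
    funext x
    unfold rs
    have : Function.update (flp j x) j b = Function.update x j b := by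
      unfold flp
      simp
    rw [this]; ring
  rw [h]
  unfold EE
  simp

theorem a1_inf_ne {N : ℕ} (f : (Fin N → Bool) → ℝ) (i j : Fin N) (hij : i ≠ j) :
    inf2 (rs j true f) i + inf2 (rs j false f) i = 2 * inf2 f i := by
  unfold inf2
  have h : ∀ b : Bool, (fun x => ((rs j b f x - rs j b f (flp i x)) / 2) ^ 2)
      = rs j b (fun x => ((f x - f (flp i x)) / 2) ^ 2) := by
    intro b
    funext x
    unfold rs
    rw [b6_upd_flp hij]
  rw [h true, h false]
  exact EE_rs _ j

theorem a1 : St_A1 := by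
  intro N f j
  unfold tot
  rw [← Finset.sum_add_distrib, ← Finset.add_sum_erase _ _ (Finset.mem_univ j),
    ← Finset.add_sum_erase (s := univ) (f := fun i => inf2 f i) (a := j) (Finset.mem_univ j)]
  rw [a1_inf_same, a1_inf_same]
  have h : ∑ i ∈ univ.erase j, (inf2 (rs j false f) i + inf2 (rs j true f) i)
      = 2 * ∑ i ∈ univ.erase j, inf2 f i := by
    rw [Finset.mul_sum]
    refine Finset.sum_congr rfl (fun i hi => ?_)
    rw [← a1_inf_ne f i j (Finset.ne_of_mem_erase hi)]
    ring
  rw [h]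
  ring

end Pool.Agent.H889R3.RQ
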